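import Mathlib

/-!
Valuations at the prime 1 + i of character sums over relative difference sets in (Z/4)^n.
-/

set_option autoImplicit false

namespace Pool.Agent.MP_f5a786_co

open Finset

/-- Reduction of Gaussian integers modulo 1 + i. -/
def par : GaussianInt →+* ZMod 2 := Zsqrtd.lift ⟨1, by decide⟩

lemma par_apply (z : GaussianInt) : par z = (z.re : ZMod 2) + (z.im : ZMod 2) := by
  simp [par, Zsqrtd.lift]

/-- The prime 1 + i. -/
def pp : GaussianInt := ⟨1, 1⟩

lemma pp_ne_zero : pp ≠ 0 := by decide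

lemma norm_pp : pp.norm = 2 := by decide

lemma par_eq_norm (z : GaussianInt) : par z = (z.norm : ZMod 2) := by
  rw [par_apply, Zsqrtd.norm_def]
  push_cast
  generalize (z.re : ZMod 2) = a
  generalize (z.im : ZMod 2) = b
  revert a b
  decide

lemma exists_of_norm (n : ℕ) : ∀ z : GaussianInt, z.norm = 2 ^ n →
    ∃ w, z = pp ^ n * w ∧ par w = 1 := by
  induction n with
  | zero =>
    intro z hz
    refine ⟨z, by simp, ?_⟩
    rw [par_eq_norm, hz]; simp
  | succ n ih =>
    intro z hz
    have h0 : par z = 0 := by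
      rw [par_eq_norm, hz]; push_cast
      have : (2 : ZMod 2) = 0 := by decide
      rw [pow_succ, this, mul_zero]
    rw [par_apply] at h0
    have h1 : ((z.re + z.im : ℤ) : ZMod 2) = 0 := by push_cast; exact h0
    obtain ⟨c, hc⟩ := (ZMod.intCast_zmod_eq_zero_iff_dvd _ 2).1 h1
    have hz' : z = pp * ⟨c, c - z.re⟩ := by
      ext
      · simp [pp]
      · simp [pp]; push_cast at hc; linarith
    have hn : (⟨c, c - z.re⟩ : GaussianInt).norm = 2 ^ n := by
      have := hz
      rw [hz', Zsqrtd.norm_mul, norm_pp, pow_succ] at this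
      linarith
    obtain ⟨w, hw, hp⟩ := ih _ hn
    refine ⟨w, ?_, hp⟩
    rw [hz', hw]; ring

/-- The character a ↦ i ^ a of Z/4. -/
def ee (a : ZMod 4) : GaussianInt := (⟨0, 1⟩ : GaussianInt) ^ a.val

lemma ee_add : ∀ a b : ZMod 4, ee (a + b) = ee a * ee b := by decide

lemma ee_zero : ee 0 = 1 := by decide

lemma star_ee : ∀ a : ZMod 4, star (ee a) = ee (-a) := by decide

lemma sum_ee : ∀ u : ZMod 4, ∑ a, ee (u * a) = if u = 0 then 4 else 0 := by decide

lemma sum_ee_even : ∀ u : ZMod 4,
    ∑ a, (if 2 • a = 0 then ee (u * a) else 0) = if 2 • u = 0 then 2 else 0 := by decide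

/-- Indicator of even residues. -/
def ev (a : ZMod 4) : ZMod 2 := if 2 • a = 0 then 1 else 0

/-- The high bit. -/
def hi (a : ZMod 4) : ZMod 2 := if 2 ≤ a.val then 1 else 0

/-- Coefficients of the four test polynomials 1, Z - i, (Z-1)(Z-i), (Z-1)(Z^2+1). -/
def cf (b1 b2 : Bool) (u : ZMod 4) : GaussianInt :=
  match b1, b2, u.val with
  | false, false, 0 => 1
  | false, false, _ => 0
  | true, false, 0 => ⟨0, -1⟩
  | true, false, 1 => 1
  | true, false, _ => 0
  | false, true, 0 => ⟨0, 1⟩
  | false, true, 1 => ⟨-1, -1⟩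
  | false, true, 2 => 1
  | false, true, _ => 0
  | true, true, 0 => -1
  | true, true, 1 => 1
  | true, true, 2 => -1
  | true, true, _ => 1

/-- Values of the test polynomials divided by the power of 1 + i. -/
def gv (b1 b2 : Bool) (a : ZMod 4) : GaussianInt :=
  match b1, b2, a.val with
  | false, false, _ => 1
  | true, false, 0 => ⟨0, -1⟩
  | true, false, 1 => 0
  | true, false, 2 => -1
  | true, false, _ => ⟨-1, -1⟩
  | false, true, 2 => ⟨0, -1⟩
  | false, true, 3 => 1
  | false, true, _ => 0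
  | true, true, 2 => 1
  | true, true, _ => 0

/-- The valuation of a test polynomial. -/
def vv (b1 b2 : Bool) : ℕ := (if b1 then 1 else 0) + (if b2 then 3 else 0)

lemma cf_sum : ∀ (b1 b2 : Bool) (a : ZMod 4),
    ∑ u, cf b1 b2 u * ee (u * a) = pp ^ vv b1 b2 * gv b1 b2 a := by decide

lemma par_gv : ∀ (b1 b2 : Bool) (a : ZMod 4),
    par (gv b1 b2 a) = (if b1 then ev a else 1) * (if b2 then hi a else 1) := by
  simp only [par_apply]; decide

lemma par_cf_sum : ∀ b1 : Bool, ∑ u, par (cf b1 true u) = 0 := by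
  simp only [par_apply]; decide

lemma par_cf_sum_ev : ∀ b1 : Bool, ∑ u, par (cf b1 true u) * ev u = 0 := by
  simp only [par_apply]; decide

variable {ι : Type} [Fintype ι] [DecidableEq ι]

/-- Characters of (Z/4)^ι. -/
def chi (u g : ι → ZMod 4) : GaussianInt := ∏ t, ee (u t * g t)

omit [DecidableEq ι] in
lemma chi_sub (u g h : ι → ZMod 4) : chi u (g - h) = chi u g * star (chi u h) := by
  unfold chi
  rw [star_prod, ← prod_mul_distrib]
  refine prod_congr rfl fun t _ => ?_
  rw [star_ee, ← ee_add]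
  congr 1
  simp only [Pi.sub_apply]; ring

omit [DecidableEq ι] in
lemma chi_zero_right (u : ι → ZMod 4) : chi u 0 = 1 := by
  simp [chi, ee_zero]

lemma sum_chi (u : ι → ZMod 4) (hu : u ≠ 0) : ∑ g, chi u g = 0 := by
  unfold chi
  have := Finset.prod_univ_sum (fun _ : ι => (univ : Finset (ZMod 4))) (fun t a => ee (u t * a))
  rw [Fintype.piFinset_univ] at this
  rw [← this]
  obtain ⟨t, ht⟩ := Function.ne_iff.1 hu
  refine prod_eq_zero (mem_univ t) ?_
  rw [sum_ee]; exact if_neg ht

lemma sum_chi_even (u : ι → ZMod 4) :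
    ∑ g, (if 2 • g = 0 then chi u g else 0) = if 2 • u = 0 then 2 ^ Fintype.card ι else 0 := by
  have h1 : ∀ g : ι → ZMod 4, (if 2 • g = 0 then chi u g else 0) =
      ∏ t, (if 2 • g t = 0 then ee (u t * g t) else 0) := by
    intro g
    split_ifs with h
    · refine prod_congr rfl fun t _ => ?_
      exact (if_pos (congrFun h t)).symm
    · obtain ⟨t, ht⟩ := Function.ne_iff.1 h
      refine (prod_eq_zero (mem_univ t) ?_).symm
      exact if_neg ht
  simp only [h1]
  have := Finset.prod_univ_sum (fun _ : ι => (univ : Finset (ZMod 4)))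
    (fun t a => if 2 • a = 0 then ee (u t * a) else 0)
  rw [Fintype.piFinset_univ] at this
  rw [← this]
  simp only [sum_ee_even]
  split_ifs with h
  · have h' : ∀ t, 2 • u t = 0 := fun t => congrFun h t
    simp only [h', if_true]
    simp
  · obtain ⟨t, ht⟩ := Function.ne_iff.1 h
    refine prod_eq_zero (mem_univ t) ?_
    exact if_neg ht

lemma prod_ev (u : ι → ZMod 4) : ∏ t, ev (u t) = if 2 • u = 0 then 1 else 0 := by
  split_ifs with h
  · refine prod_eq_one fun t _ => ?_
    exact if_pos (congrFun h t)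
  · obtain ⟨t, ht⟩ := Function.ne_iff.1 h
    exact prod_eq_zero (mem_univ t) (if_neg ht)

variable {A : Type} [Fintype A] [AddCommGroup A] [DecidableEq A]

/-- Every character sum over the set is (1+i)^n times a number whose parity only depends on
whether the character is trivial on the elements of order two. -/
lemma char_sum (φ : A ≃+ (ι → ZMod 4)) (D : Finset A) (hcard : D.card = 2 ^ Fintype.card ι)
    (hD : ∀ F : A → GaussianInt,
      ∑ d ∈ D, ∑ d' ∈ D, F (d - d') + ∑ g, (if 2 • g = 0 then F g else 0)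
        = D.card • F 0 + ∑ g, F g)
    (hι : Nonempty ι) (y : A) (u : ι → ZMod 4) :
    ∃ w, ∑ d ∈ D, chi u (φ (d - y)) = pp ^ Fintype.card ι * w ∧
      par w = 1 - ∏ t, ev (u t) := by
  by_cases hu : u = 0
  · subst hu
    refine ⟨(star pp) ^ Fintype.card ι, ?_, ?_⟩
    · have h2 : pp * star pp = 2 := by decide
      rw [← mul_pow, h2]
      simp [chi, ee_zero, hcard]
    · have h3 : par (star pp) = 0 := by rw [par_apply]; decide
      rw [map_pow, h3, prod_ev, zero_pow Fintype.card_ne_zero]
      simp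
  · set z := ∑ d ∈ D, chi u (φ (d - y)) with hz
    have h1 : z * star z = ∑ d ∈ D, ∑ d' ∈ D, chi u (φ (d - d')) := by
      rw [hz, star_sum, sum_mul_sum]
      refine sum_congr rfl fun d _ => sum_congr rfl fun d' _ => ?_
      rw [← chi_sub, ← map_sub]
      congr 2
      abel
    have h2 := hD (fun g => chi u (φ g))
    have h3 : ∑ g, chi u (φ g) = 0 := by
      rw [← sum_chi u hu]
      exact Equiv.sum_comp φ.toEquiv (fun g => chi u g)
    have h4 : ∑ g, (if 2 • g = 0 then chi u (φ g) else 0) =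
        if 2 • u = 0 then 2 ^ Fintype.card ι else 0 := by
      rw [← sum_chi_even u, ← Equiv.sum_comp φ.toEquiv]
      refine sum_congr rfl fun g _ => ?_
      have : (2 • g = 0) ↔ (2 • φ g = 0) := by
        rw [← map_nsmul, φ.map_eq_zero_iff]
      simp only [this]
      rfl
    simp only [h3, h4, ← h1, map_zero, chi_zero_right, hcard, add_zero] at h2
    rw [← Zsqrtd.norm_eq_mul_conj] at h2
    by_cases h : 2 • u = 0
    · rw [if_pos h] at h2
      have h5 : (z.norm : GaussianInt) = 0 := by
        have : ((2 ^ Fintype.card ι : ℕ) • (1 : GaussianInt)) = 2 ^ Fintype.card ι := by simp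
        rw [this] at h2
        simpa using h2
      have h6 : z.norm = 0 := by exact_mod_cast h5
      refine ⟨0, ?_, ?_⟩
      · rw [mul_zero]; exact GaussianInt.norm_eq_zero.1 h6
      · rw [prod_ev, if_pos h]; simp
    · rw [if_neg h, add_zero] at h2
      have h6 : z.norm = 2 ^ Fintype.card ι := by
        have : ((2 ^ Fintype.card ι : ℕ) • (1 : GaussianInt)) =
            ((2 ^ Fintype.card ι : ℤ) : GaussianInt) := by simp
        rw [this] at h2
        exact_mod_cast h2
      obtain ⟨w, hw, hp⟩ := exists_of_norm _ z h6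
      refine ⟨w, hw, ?_⟩
      rw [prod_ev, if_neg h, hp]; simp

/-- The main congruence. -/
theorem core (φ : A ≃+ (ι → ZMod 4)) (D : Finset A) (hcard : D.card = 2 ^ Fintype.card ι)
    (hD : ∀ F : A → GaussianInt,
      ∑ d ∈ D, ∑ d' ∈ D, F (d - d') + ∑ g, (if 2 • g = 0 then F g else 0)
        = D.card • F 0 + ∑ g, F g)
    (y : A) (b1 b2 : ι → Bool) (hv : ∑ t, vv (b1 t) (b2 t) = Fintype.card ι)
    (m : ι) (hm : b2 m = true) :
    ∑ d ∈ D, ∏ t, ((if b1 t then ev (φ (d - y) t) else 1) *
      (if b2 t then hi (φ (d - y) t) else 1)) = 0 := by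
  choose w hw hp using char_sum φ D hcard hD ⟨m⟩ y
  have h1 : ∀ d, ∏ t, (pp ^ vv (b1 t) (b2 t) * gv (b1 t) (b2 t) (φ (d - y) t)) =
      ∑ u : ι → ZMod 4, (∏ t, cf (b1 t) (b2 t) (u t)) * chi u (φ (d - y)) := by
    intro d
    simp only [← cf_sum]
    have := Finset.prod_univ_sum (fun _ : ι => (univ : Finset (ZMod 4)))
      (fun t a => cf (b1 t) (b2 t) a * ee (a * φ (d - y) t))
    rw [Fintype.piFinset_univ] at this
    rw [this]
    refine sum_congr rfl fun u _ => ?_
    rw [prod_mul_distrib]; rfl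
  have h2 : pp ^ Fintype.card ι * ∑ d ∈ D, ∏ t, gv (b1 t) (b2 t) (φ (d - y) t) =
      pp ^ Fintype.card ι * ∑ u : ι → ZMod 4, (∏ t, cf (b1 t) (b2 t) (u t)) * w u := by
    calc _ = ∑ d ∈ D, ∏ t, (pp ^ vv (b1 t) (b2 t) * gv (b1 t) (b2 t) (φ (d - y) t)) := by
          rw [mul_sum]
          refine sum_congr rfl fun d _ => ?_
          rw [prod_mul_distrib, prod_pow_eq_pow_sum, hv]
      _ = ∑ u : ι → ZMod 4, (∏ t, cf (b1 t) (b2 t) (u t)) * ∑ d ∈ D, chi u (φ (d - y)) := by
          simp only [h1]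
          rw [sum_comm]
          simp only [mul_sum]
      _ = _ := by
          rw [mul_sum]
          refine sum_congr rfl fun u _ => ?_
          rw [hw]; ring
  have h3 := congrArg par (mul_left_cancel₀ (pow_ne_zero _ pp_ne_zero) h2)
  simp only [map_sum, map_prod, map_mul, par_gv, hp] at h3
  rw [h3]
  have h4 := Finset.prod_univ_sum (fun _ : ι => (univ : Finset (ZMod 4)))
      (fun t a => par (cf (b1 t) (b2 t) a))
  have h5 := Finset.prod_univ_sum (fun _ : ι => (univ : Finset (ZMod 4)))
      (fun t a => par (cf (b1 t) (b2 t) a) * ev a)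
  rw [Fintype.piFinset_univ] at h4 h5
  rw [prod_eq_zero (mem_univ m) (by rw [hm]; exact par_cf_sum _)] at h4
  rw [prod_eq_zero (mem_univ m) (by rw [hm]; exact par_cf_sum_ev _)] at h5
  simp only [mul_sub, mul_one, sum_sub_distrib, ← prod_mul_distrib]
  rw [← h4, ← h5, sub_zero]

end Pool.Agent.MP_f5a786_co
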