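import Mathlib
import Pool.Agent.MP_f5a786_co.Gauss

/-!
Relative difference sets with parameters (n,n,n,1), n even: the theorem of Ganley on the
shape of the group.
-/

set_option autoImplicit false

namespace Pool.Agent.MP_f5a786_co

open Finset

variable {A : Type} [AddCommGroup A]

/-- D is a transversal of N and each element outside N is a difference exactly once. -/
structure IsRDS (N : AddSubgroup A) (D : Finset A) : Prop where
  diff : ∀ g, g ∉ N → ∃! p : A × A, p.1 ∈ D ∧ p.2 ∈ D ∧ p.1 - p.2 = g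
  trans : ∀ g, ∃! d, d ∈ D ∧ d - g ∈ N

namespace IsRDS

variable {N : AddSubgroup A} {D : Finset A} (h : IsRDS N D)
include h

/-- The element of D in the coset of g. -/
noncomputable def rep (g : A) : A := (h.trans g).exists.choose

lemma rep_mem (g : A) : h.rep g ∈ D := (h.trans g).exists.choose_spec.1

lemma rep_sub (g : A) : h.rep g - g ∈ N := (h.trans g).exists.choose_spec.2

lemma rep_eq {g d : A} (hd : d ∈ D) (hg : d - g ∈ N) : h.rep g = d :=
  (h.trans g).unique ⟨h.rep_mem g, h.rep_sub g⟩ ⟨hd, hg⟩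

lemma eq_of_sub_mem {d d' : A} (hd : d ∈ D) (hd' : d' ∈ D) (hs : d - d' ∈ N) : d = d' :=
  (h.trans d').unique ⟨hd, hs⟩ ⟨hd', by simp⟩

lemma rep_congr {g g' : A} (hg : g - g' ∈ N) : h.rep g = h.rep g' := by
  refine (h.rep_eq (h.rep_mem g) ?_).symm
  have := N.add_mem (h.rep_sub g) hg
  simpa using this

lemma diff_unique {a b c d : A} (ha : a ∈ D) (hb : b ∈ D) (hc : c ∈ D) (hd : d ∈ D)
    (he : a - b = c - d) (hn : a - b ∉ N) : a = c ∧ b = d := by
  have := (h.diff _ hn).unique (y₁ := (a, b)) (y₂ := (c, d)) ⟨ha, hb, rfl⟩ ⟨hc, hd, he.symm⟩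
  exact ⟨congrArg Prod.fst this, congrArg Prod.snd this⟩

variable [Fintype A] [DecidableEq A]

open Classical in
lemma count {R : Type} [AddCommMonoid R] (F : A → R) :
    ∑ d ∈ D, ∑ d' ∈ D, F (d - d') + ∑ g, (if g ∈ N then F g else 0)
      = D.card • F 0 + ∑ g, F g := by
  have h1 : ∑ d ∈ D, ∑ d' ∈ D, F (d - d') =
      ∑ p ∈ D.diag, F (p.1 - p.2) + ∑ p ∈ D.offDiag, F (p.1 - p.2) := by
    rw [← sum_product', ← diag_union_offDiag, sum_union (disjoint_diag_offDiag _)]
  have h2 : ∑ p ∈ D.diag, F (p.1 - p.2) = D.card • F 0 := by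
    rw [sum_diag]; simp
  have h3 : ∑ p ∈ D.offDiag, F (p.1 - p.2) = ∑ g ∈ univ.filter (fun g => g ∉ N), F g := by
    refine sum_bij (fun p _ => p.1 - p.2) ?_ ?_ ?_ ?_
    · intro p hp
      rw [mem_offDiag] at hp
      simp only [mem_filter, mem_univ, true_and]
      exact fun hn => hp.2.2 (h.eq_of_sub_mem hp.1 hp.2.1 hn)
    · intro p hp q hq he
      rw [mem_offDiag] at hp hq
      have := h.diff_unique hp.1 hp.2.1 hq.1 hq.2.1 he
        (fun hn => hp.2.2 (h.eq_of_sub_mem hp.1 hp.2.1 hn))
      exact Prod.ext this.1 this.2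
    · intro g hg
      simp only [mem_filter, mem_univ, true_and] at hg
      obtain ⟨p, hp⟩ := (h.diff g hg).exists
      refine ⟨p, ?_, hp.2.2⟩
      rw [mem_offDiag]
      refine ⟨hp.1, hp.2.1, fun he => hg ?_⟩
      rw [← hp.2.2, he, sub_self]; exact N.zero_mem
    · intro p _; rfl
  rw [h1, h2, h3, add_assoc, ← sum_filter, add_comm (∑ g ∈ _, F g),
    sum_filter_add_sum_filter_not]

lemma card_eq : Fintype.card A = D.card * Nat.card N := by
  have e : A ≃ D × N :=
    { toFun := fun g => (⟨h.rep g, h.rep_mem g⟩, ⟨h.rep g - g, h.rep_sub g⟩)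
      invFun := fun p => p.1 - p.2
      left_inv := fun g => by simp
      right_inv := fun p => by
        have : h.rep (p.1 - p.2) = p.1 := h.rep_eq p.1.2 (by simp)
        ext <;> simp [this] }
  rw [← Nat.card_eq_fintype_card, Nat.card_congr e, Nat.card_prod]
  simp

omit h [AddCommGroup A] [Fintype A] in
lemma sum_symm (s : Finset A) (K : A → A → ZMod 2) (hK : ∀ a b, K a b = K b a) :
    ∑ a ∈ s, ∑ b ∈ s, K a b = ∑ a ∈ s, K a a := by
  induction s using Finset.induction_on with
  | empty => simp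
  | insert x s hx ih =>
    simp only [sum_insert hx, sum_add_distrib, ih]
    have h1 : ∑ a ∈ s, K a x = ∑ a ∈ s, K x a := sum_congr rfl fun a _ => hK a x
    rw [h1]
    have h2 : ∀ z : ZMod 2, z + z = 0 := by decide
    linear_combination h2 (∑ a ∈ s, K x a)

/-- Every element is of the form 2 e - d. -/
lemma exists_double (hev : Even D.card) (g : A) : ∃ e ∈ D, ∃ d ∈ D, e + e - d = g := by
  classical
  have hc : (D.card : ZMod 2) = 0 := (ZMod.natCast_eq_zero_iff_even).2 hev
  have h2 : ∀ z : ZMod 2, z + z = 0 := by decide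
  have ha : ∑ e ∈ D, ∑ e' ∈ D, ∑ d ∈ D, (if e + e' - d = g then (1 : ZMod 2) else 0) = 1 := by
    have h1 : ∀ e, ∑ e' ∈ D, ∑ d ∈ D, (if e + e' - d = g then (1 : ZMod 2) else 0) =
        1 + (if e - g ∈ N then 1 else 0) := by
      intro e
      have h3 := h.count (fun z => if z = g - e then (1 : ZMod 2) else 0)
      have h4 : ∑ z, (if z ∈ N then (if z = g - e then (1 : ZMod 2) else 0) else 0) =
          if e - g ∈ N then 1 else 0 := by
        rw [sum_eq_single (g - e)]
        · have : (g - e ∈ N) ↔ (e - g ∈ N) := by rw [← N.neg_mem_iff, neg_sub]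
          simp [this]
        · intro b _ hb; simp [hb]
        · simp
      rw [h4, nsmul_eq_mul, hc, zero_mul, zero_add] at h3
      simp only [sum_ite_eq', mem_univ, if_true] at h3
      have h5 : ∀ e' d, (e + e' - d = g) ↔ (e' - d = g - e) := by
        intro e' d
        constructor <;> intro hh
        · rw [← hh]; abel
        · rw [add_sub_assoc, hh]; abel
      simp only [h5]
      linear_combination h3 - h2 (if e - g ∈ N then 1 else 0)
    simp only [h1, sum_add_distrib]
    rw [sum_const, nsmul_eq_mul, hc, zero_mul, zero_add, sum_eq_single (h.rep g)]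
    · rw [if_pos (h.rep_sub g)]
    · intro b hb hne
      exact if_neg fun hn => hne (h.rep_eq hb hn).symm
    · intro hn; exact absurd (h.rep_mem g) hn
  rw [sum_symm D _ (fun a b => by simp only [add_comm a b])] at ha
  by_contra hcon
  push Not at hcon
  rw [sum_eq_zero fun e he => sum_eq_zero fun d hd => if_neg (hcon e he d hd)] at ha
  exact zero_ne_one ha

lemma double_inj (hev : Even D.card) (hN : Nat.card N = D.card) {e d e' d' : A}
    (he : e ∈ D) (hd : d ∈ D) (he' : e' ∈ D) (hd' : d' ∈ D)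
    (hh : e + e - d = e' + e' - d') : e = e' ∧ d = d' := by
  let f : D × D → A := fun p => p.1 + p.1 - p.2
  have hs : Function.Surjective f := by
    intro g
    obtain ⟨a, ha, b, hb, hab⟩ := h.exists_double hev g
    exact ⟨(⟨a, ha⟩, ⟨b, hb⟩), hab⟩
  have hb : Function.Bijective f := by
    refine (Fintype.bijective_iff_surjective_and_card f).2 ⟨hs, ?_⟩
    rw [h.card_eq, hN]; simp
  have := hb.1 (a₁ := (⟨e, he⟩, ⟨d, hd⟩)) (a₂ := (⟨e', he'⟩, ⟨d', hd'⟩)) hh
  simpa using this

lemma double_mem (hev : Even D.card) (hN : Nat.card N = D.card) (h0 : (0 : A) ∈ D) (g : A) :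
    g + g ∈ N := by
  have h1 : h.rep g + h.rep g ∈ N := by
    by_contra hn
    obtain ⟨p, hp⟩ := (h.diff _ hn).exists
    have := h.double_inj hev hN (h.rep_mem g) hp.1 h0 hp.2.1 (by rw [← hp.2.2]; abel)
    rw [this.1] at hn
    exact hn (by simp)
  have := N.sub_mem h1 (N.add_mem (h.rep_sub g) (h.rep_sub g))
  convert this using 1
  abel

omit [Fintype A] [DecidableEq A] in
lemma mem_of_double {g : A} (hg : g + g = 0) : g ∈ N := by
  by_contra hn
  obtain ⟨p, hp⟩ := (h.diff _ hn).exists
  have h1 : p.1 - p.2 = p.2 - p.1 := by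
    have : p.2 - p.1 = -g := by rw [← hp.2.2]; abel
    rw [this, hp.2.2]; exact eq_neg_of_add_eq_zero_left hg
  have := h.diff_unique hp.1 hp.2.1 hp.2.1 hp.1 h1 (by rw [hp.2.2]; exact hn)
  apply hn
  rw [← hp.2.2, this.1, sub_self]; exact N.zero_mem

lemma exists_half (hev : Even D.card) (hN : Nat.card N = D.card) (h0 : (0 : A) ∈ D) {g : A}
    (hg : g ∈ N) : ∃ e ∈ D, e + e = g := by
  let f : D → N := fun e => ⟨e + e, h.double_mem hev hN h0 e⟩
  have hi : Function.Injective f := by
    intro a b hab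
    have h1 : (a : A) + a = b + b := congrArg Subtype.val hab
    exact Subtype.ext (h.double_inj hev hN a.2 h0 b.2 h0 (by rw [h1])).1
  have hb := hi.bijective_of_nat_card_le (by rw [hN]; simp)
  obtain ⟨e, he⟩ := hb.2 ⟨g, hg⟩
  exact ⟨e, e.2, congrArg Subtype.val he⟩

/-- N consists of the elements of order at most two. -/
lemma mem_iff (hev : Even D.card) (hN : Nat.card N = D.card) (h0 : (0 : A) ∈ D) (g : A) :
    g ∈ N ↔ 2 • g = 0 := by
  rw [two_nsmul]
  refine ⟨fun hg => ?_, h.mem_of_double⟩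
  obtain ⟨e, he, hh⟩ := h.exists_half hev hN h0 (N.add_mem hg hg)
  have h1 : e - g ∈ N := h.mem_of_double (by rw [← sub_eq_zero] at hh; rw [← hh]; abel)
  have h2 : e = 0 := h.eq_of_sub_mem he h0 (by simpa using N.add_mem h1 hg)
  rw [← hh, h2, add_zero]

/-- The theorem of Ganley. -/
lemma exists_coord (hev : Even D.card) (hN : Nat.card N = D.card) (h0 : (0 : A) ∈ D) :
    ∃ n : ℕ, D.card = 2 ^ n ∧ Nonempty (A ≃+ (Fin n → ZMod 4)) := by
  have hm := h.mem_iff hev hN h0
  letI : Module (ZMod 2) N := AddCommGroup.zmodModule (n := 2) (by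
    intro x; exact Subtype.ext ((hm x).1 x.2))
  haveI : Module.Finite (ZMod 2) N := Module.Finite.of_finite
  have h4 : ∀ g : A, 4 • g = 0 := by
    intro g
    have := (hm _).1 (h.double_mem hev hN h0 g)
    rw [← this]; abel
  letI : Module (ZMod 4) A := AddCommGroup.zmodModule (n := 4) h4
  set n := Module.finrank (ZMod 2) N with hn
  have hc : D.card = 2 ^ n := by
    rw [← hN, Module.natCard_eq_pow_finrank (K := ZMod 2)]; simp [hn]
  let b := Module.finBasis (ZMod 2) N
  choose g _ hg using fun t => h.exists_half hev hN h0 (b t).2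
  have hind : ∀ c : Fin n → ℕ, ∑ t, c t • (g t + g t) = 0 → ∀ t, 2 ∣ c t := by
    intro c hcz t
    have h1 : ∑ t, (c t : ZMod 2) • b t = 0 := by
      simp only [Nat.cast_smul_eq_nsmul]
      apply Subtype.ext
      simp only [hg] at hcz
      simpa using hcz
    have := Fintype.linearIndependent_iff.1 b.linearIndependent _ h1 t
    exact (ZMod.natCast_eq_zero_iff _ _).1 this
  let ψ : (Fin n → ZMod 4) →+ A := (Fintype.linearCombination (ZMod 4) g).toAddMonoidHom
  have hψ : ∀ c, ψ c = ∑ t, (c t).val • g t := by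
    intro c
    simp only [ψ, LinearMap.toAddMonoidHom_coe, Fintype.linearCombination_apply]
    refine sum_congr rfl fun t _ => ?_
    rw [← Nat.cast_smul_eq_nsmul (ZMod 4), ZMod.natCast_zmod_val]
  have hi : Function.Injective ψ := by
    rw [injective_iff_map_eq_zero]
    intro c hcz
    rw [hψ] at hcz
    have h1 : ∀ t, 2 ∣ (c t).val := by
      apply hind
      simp only [smul_add, sum_add_distrib, hcz, add_zero]
    choose c' hc' using h1
    have h2 : ∀ t, 2 ∣ c' t := by
      apply hind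
      rw [← hcz]
      refine sum_congr rfl fun t _ => ?_
      rw [hc', ← two_nsmul, smul_smul, mul_comm]
    funext t
    obtain ⟨k, hk⟩ := h2 t
    have h3 : 4 ∣ (c t).val := ⟨k, by rw [hc', hk]; ring⟩
    rw [← ZMod.natCast_zmod_val (c t)]
    exact (ZMod.natCast_eq_zero_iff _ _).2 h3
  have hb : Function.Bijective ψ := by
    refine (Fintype.bijective_iff_injective_and_card ψ).2 ⟨hi, ?_⟩
    rw [h.card_eq, hN, hc, ← mul_pow]; simp
  exact ⟨n, hc, ⟨(AddEquiv.ofBijective ψ hb).symm⟩⟩

end IsRDS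

end Pool.Agent.MP_f5a786_co
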