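import Mathlib
import Pool.Agent.MP_f5a786_co.RDS

/-!
The transversal map of an (n,n,n,1) relative difference set with n even is quadratic.
-/

set_option autoImplicit false

namespace Pool.Agent.MP_f5a786_co

open Finset

variable {A : Type} [AddCommGroup A]

/-- Difference operator. -/
def dl (a : A) (F : A → A) : A → A := fun x => F (x + a) - F x

lemma dl_comm (a b : A) (F : A → A) : dl a (dl b F) = dl b (dl a F) := by
  funext x
  simp only [dl, add_right_comm x a b]
  abel

lemma dl_add (a a' : A) (F : A → A) (x : A) : dl (a + a') F x = dl a F (x + a') + dl a' F x := by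
  simp only [dl, add_right_comm x a' a, add_assoc]
  abel

lemma dl_zero (F : A → A) : dl 0 F = 0 := by
  funext x; simp [dl]

lemma gen_induction {n : ℕ} (φ : A ≃+ (Fin n → ZMod 4)) (Q : A → Prop) (h0 : Q 0)
    (hadd : ∀ a b, Q a → Q b → Q (a + b)) (hs : ∀ t, Q (φ.symm (Pi.single t 1))) (a : A) :
    Q a := by
  have h1 : ∀ (k : ℕ) b, Q b → Q (k • b) := by
    intro k b hb
    induction k with
    | zero => simpa using h0
    | succ k ih => rw [succ_nsmul]; exact hadd _ _ ih hb
  have h2 : a = ∑ t, (φ a t).val • φ.symm (Pi.single t 1) := by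
    apply φ.injective
    simp only [map_sum, map_nsmul, AddEquiv.apply_symm_apply]
    funext s
    simp only [Finset.sum_apply, Pi.smul_apply, Pi.single_apply, smul_ite, smul_zero,
      sum_ite_eq, mem_univ, if_true]
    rw [nsmul_eq_mul, mul_one, ZMod.natCast_zmod_val]
  rw [h2]
  exact Finset.sum_induction _ Q hadd h0 fun t _ => h1 _ _ (hs t)

/-- Doubling map from Z/2 to Z/4. -/
def dbl (z : ZMod 2) : ZMod 4 := if z = 0 then 0 else 2

lemma eq_add_dbl : ∀ a b : ZMod 4, (b = 0 ∨ b = 1) → 2 • (a - b) = 0 → a = b + dbl (hi a) := by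
  decide

lemma dbl_cube : ∀ z0 z1 z2 z3 z4 z5 z6 z7 : ZMod 2,
    z0 + z1 + z2 + z3 + z4 + z5 + z6 + z7 = 0 →
    dbl z7 - dbl z6 - (dbl z5 - dbl z4) - (dbl z3 - dbl z2 - (dbl z1 - dbl z0)) = 0 := by
  decide

/-- The residue 0 or 1 attached to a Boolean. -/
def bz (e : Bool) : ZMod 4 := if e then 1 else 0

lemma exists_bz : ∀ a : ZMod 4, 2 • (a - bz (decide (2 • a ≠ 0))) = 0 := by decide

lemma bz_inj : ∀ e e' : Bool, 2 • (bz e - bz e') = 0 → e = e' := by decide

lemma even_trans : ∀ a : ZMod 4, 2 • (a - 0) = 0 ↔ ev a = 1 := by decide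

lemma ev_cases : ∀ a : ZMod 4, ev a ≠ 1 → ev a = 0 := by decide

namespace IsRDS

variable {N : AddSubgroup A} {D : Finset A} (h : IsRDS N D)
include h

variable [Fintype A] [DecidableEq A]

lemma cube_basis (hm : ∀ g, g ∈ N ↔ 2 • g = 0) {n : ℕ} (hc : D.card = 2 ^ n)
    (φ : A ≃+ (Fin n → ZMod 4)) (i j k : Fin n) (hij : i ≠ j) (hik : i ≠ k) (hjk : j ≠ k)
    (x : A) :
    dl (φ.symm (Pi.single i 1)) (dl (φ.symm (Pi.single j 1))
      (dl (φ.symm (Pi.single k 1)) h.rep)) x = 0 := by
  classical
  apply φ.injective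
  funext m
  set y := h.rep x with hy
  let S : Finset (Fin n) := {i, j, k}
  have hS : S.card = 3 := card_eq_three.2 ⟨i, j, k, hij, hik, hjk, rfl⟩
  have hn : 3 ≤ n := by simpa [hS] using card_le_univ S
  have hD : ∀ F : A → GaussianInt,
      ∑ d ∈ D, ∑ d' ∈ D, F (d - d') + ∑ g, (if 2 • g = 0 then F g else 0)
        = D.card • F 0 + ∑ g, F g := by
    intro F
    have := h.count F
    simp only [hm] at this
    convert this
  have hcore := core φ D (by simpa using hc) hD y (fun t => decide (t ∉ S))
    (fun t => decide (t = m)) (by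
      simp only [vv, sum_add_distrib, decide_eq_true_eq]
      rw [sum_ite_eq' univ m, ← sum_filter, filter_not, filter_mem_eq_inter]
      simp [card_sdiff, hS]
      omega) m (by simp)
  simp only [decide_eq_true_eq, prod_mul_distrib] at hcore
  simp only [prod_ite_eq', mem_univ, if_true] at hcore
  -- the eight points
  let W : Bool × Bool × Bool → Fin n → ZMod 4 := fun e =>
    Pi.single i (bz e.1) + Pi.single j (bz e.2.1) + Pi.single k (bz e.2.2)
  let R : Bool × Bool × Bool → A := fun e => h.rep (x + φ.symm (W e))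
  have hWi : ∀ e, W e i = bz e.1 := by intro e; simp [W, hij, hik]
  have hWj : ∀ e, W e j = bz e.2.1 := by intro e; simp [W, hij.symm, hjk]
  have hWk : ∀ e, W e k = bz e.2.2 := by intro e; simp [W, hik.symm, hjk.symm]
  have hWo : ∀ e t, t ∉ S → W e t = 0 := by
    intro e t ht
    simp only [S, mem_insert, mem_singleton, not_or] at ht
    simp [W, ht.1, ht.2.1, ht.2.2]
  have hW01 : ∀ e t, W e t = 0 ∨ W e t = 1 := by
    intro e t
    have hb : ∀ b : Bool, bz b = 0 ∨ bz b = 1 := by decide
    by_cases ht : t ∈ S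
    · simp only [S, mem_insert, mem_singleton] at ht
      rcases ht with rfl | rfl | rfl
      · rw [hWi]; exact hb _
      · rw [hWj]; exact hb _
      · rw [hWk]; exact hb _
    · exact Or.inl (hWo e t ht)
  have hmem : ∀ d e, d - (x + φ.symm (W e)) ∈ N ↔ ∀ t, 2 • (φ (d - y) t - W e t) = 0 := by
    intro d e
    have h1 : d - (x + φ.symm (W e)) ∈ N ↔ d - y - φ.symm (W e) ∈ N := by
      have h2 : d - (x + φ.symm (W e)) = (d - y - φ.symm (W e)) + (y - x) := by abel
      rw [h2]
      exact N.add_mem_cancel_right (h.rep_sub x)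
    rw [h1, hm, ← φ.map_eq_zero_iff, map_nsmul, map_sub φ (d - y), AddEquiv.apply_symm_apply,
      funext_iff]
    rfl
  have hR : ∀ e t, 2 • (φ (R e - y) t - W e t) = 0 := fun e => (hmem _ e).1 (h.rep_sub _)
  have hsum : ∑ e : Bool × Bool × Bool, hi (φ (R e - y) m) = 0 := by
    rw [← hcore]
    have h1 : ∀ d ∈ D, (∏ t, if t ∉ S then ev (φ (d - y) t) else 1) * hi (φ (d - y) m) =
        if ∀ t, t ∉ S → ev (φ (d - y) t) = 1 then hi (φ (d - y) m) else 0 := by
      intro d _
      split_ifs with hh
      · rw [prod_eq_one, one_mul]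
        intro t _
        split_ifs with ht
        · rfl
        · exact hh t ht
      · push Not at hh
        obtain ⟨t, ht, hne⟩ := hh
        rw [prod_eq_zero (mem_univ t), zero_mul]
        rw [if_pos ht]
        exact ev_cases _ hne
    rw [sum_congr rfl h1, ← sum_filter]
    refine sum_bij (fun e _ => R e) ?_ ?_ ?_ ?_
    · intro e _
      simp only [mem_filter]
      refine ⟨h.rep_mem _, fun t ht => ?_⟩
      have h2 := hR e t
      rw [hWo e t ht] at h2
      exact (even_trans _).1 h2
    · intro e _ e' _ he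
      have h2 : ∀ t, 2 • (W e t - W e' t) = 0 := by
        intro t
        have h3 := hR e t
        have h4 := hR e' t
        rw [he] at h3
        rw [smul_sub] at h3 h4 ⊢
        linear_combination h4 - h3
      have a1 := h2 i
      have a2 := h2 j
      have a3 := h2 k
      rw [hWi, hWi] at a1
      rw [hWj, hWj] at a2
      rw [hWk, hWk] at a3
      exact Prod.ext (bz_inj _ _ a1) (Prod.ext (bz_inj _ _ a2) (bz_inj _ _ a3))
    · intro d hd
      simp only [mem_filter] at hd
      refine ⟨(decide (2 • φ (d - y) i ≠ 0), decide (2 • φ (d - y) j ≠ 0),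
        decide (2 • φ (d - y) k ≠ 0)), mem_univ _, ?_⟩
      refine h.rep_eq hd.1 ((hmem _ _).2 fun t => ?_)
      by_cases ht : t ∈ S
      · simp only [S, mem_insert, mem_singleton] at ht
        rcases ht with rfl | rfl | rfl
        · rw [hWi]; exact exists_bz _
        · rw [hWj]; exact exists_bz _
        · rw [hWk]; exact exists_bz _
      · rw [hWo _ t ht, even_trans]; exact hd.2 t ht
    · intro e _; rfl
  have hval : ∀ e, φ (R e) m = φ y m + W e m + dbl (hi (φ (R e - y) m)) := by
    intro e
    have h1 := eq_add_dbl _ _ (hW01 e m) (hR e m)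
    rw [add_assoc, ← h1, map_sub, Pi.sub_apply]; abel
  have hexp : dl (φ.symm (Pi.single i 1)) (dl (φ.symm (Pi.single j 1))
      (dl (φ.symm (Pi.single k 1)) h.rep)) x =
      R (true, true, true) - R (true, true, false)
        - (R (true, false, true) - R (true, false, false))
        - (R (false, true, true) - R (false, true, false)
        - (R (false, false, true) - R (false, false, false))) := by
    simp [dl, R, W, bz, add_assoc]
  rw [hexp]
  simp only [map_sub, Pi.sub_apply, map_zero, Pi.zero_apply]
  simp only [hval]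
  have h8 := dbl_cube (hi (φ (R (false, false, false) - y) m))
    (hi (φ (R (false, false, true) - y) m)) (hi (φ (R (false, true, false) - y) m))
    (hi (φ (R (false, true, true) - y) m)) (hi (φ (R (true, false, false) - y) m))
    (hi (φ (R (true, false, true) - y) m)) (hi (φ (R (true, true, false) - y) m))
    (hi (φ (R (true, true, true) - y) m)) (by
      rw [← hsum]
      simp only [Fintype.sum_prod_type, Fintype.sum_bool]
      ring)
  have h9 : W (true, true, true) m - W (true, true, false) m
        - (W (true, false, true) m - W (true, false, false) m)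
        - (W (false, true, true) m - W (false, true, false) m
        - (W (false, false, true) m - W (false, false, false) m)) = 0 := by
    simp only [W, Pi.add_apply]; ring
  linear_combination h8 + h9

omit [Fintype A] [DecidableEq A] in
lemma cube_rep (hm : ∀ g, g ∈ N ↔ 2 • g = 0) (h2 : ∀ g : A, g + g ∈ N) (a b : A) :
    dl b (dl a (dl a h.rep)) = 0 := by
  have h1 : ∀ x, dl a (dl a h.rep) x = -(a + a) := by
    intro x
    have h3 : h.rep (x + a + a) = h.rep x := h.rep_congr (by simpa [add_assoc] using h2 a)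
    have h4 := (hm _).1 (N.sub_mem (h.rep_sub x) (h.rep_sub (x + a)))
    simp only [dl, h3]
    rw [← sub_eq_zero, ← h4]
    abel
  funext x
  rw [dl, h1, h1]; simp

/-- All third differences of the transversal map vanish. -/
theorem cube (hev : Even D.card) (hN : Nat.card N = D.card) (h0 : (0 : A) ∈ D) (a b c : A) :
    dl a (dl b (dl c h.rep)) = 0 := by
  have hm := h.mem_iff hev hN h0
  have h2 := h.double_mem hev hN h0
  obtain ⟨n, hc, ⟨φ⟩⟩ := h.exists_coord hev hN h0
  have hadd : ∀ (F : A → A) (a a' : A), dl a F = 0 → dl a' F = 0 → dl (a + a') F = 0 := by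
    intro F a a' ha ha'
    funext x
    rw [dl_add, ha, ha']; simp
  have s1 : ∀ (j k : Fin n) (a : A), dl a (dl (φ.symm (Pi.single j 1))
      (dl (φ.symm (Pi.single k 1)) h.rep)) = 0 := by
    intro j k a
    by_cases hjk : j = k
    · rw [hjk]; exact h.cube_rep hm h2 _ _
    refine gen_induction φ (fun a => dl a _ = 0) (dl_zero _) (hadd _) (fun i => ?_) a
    by_cases hij : i = j
    · rw [hij, dl_comm _ (φ.symm (Pi.single k 1)), dl_comm _ (φ.symm (Pi.single k 1))]
      exact h.cube_rep hm h2 _ _
    by_cases hik : i = k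
    · rw [hik, dl_comm _ (φ.symm (Pi.single j 1))]
      exact h.cube_rep hm h2 _ _
    funext x
    exact h.cube_basis hm hc φ i j k hij hik hjk x
  have s2 : ∀ (k : Fin n) (a b : A), dl a (dl b (dl (φ.symm (Pi.single k 1)) h.rep)) = 0 := by
    intro k a b
    refine gen_induction φ (fun a => dl a _ = 0) (dl_zero _) (hadd _) (fun i => ?_) a
    rw [dl_comm]
    exact s1 i k b
  refine gen_induction φ (fun a => dl a _ = 0) (dl_zero _) (hadd _) (fun i => ?_) a
  rw [dl_comm _ b, dl_comm _ c]
  exact s2 i b c

end IsRDS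

end Pool.Agent.MP_f5a786_co
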