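import Mathlib
import Pool.Agent.MP_f5a786_co.Quad

/-!
The commutative semifield attached to an (n,n,n,1) relative difference set with n even.
-/

set_option autoImplicit false

namespace Pool.Agent.MP_f5a786_co

open Finset

variable {A : Type} [AddCommGroup A]

/-- A commutative bi-additive multiplication with identity gives a ring structure. -/
@[reducible] def ringOfMul {S : Type} [AddCommGroup S] (mu : S → S → S) (o : S)
    (hc : ∀ a b, mu a b = mu b a) (ha : ∀ a b c, mu (a + b) c = mu a c + mu b c)
    (ho : ∀ a, mu o a = a) : NonAssocRing S :=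
  { (inferInstance : AddCommGroup S) with
    mul := mu
    one := o
    left_distrib := fun a b c => by
      change mu a (b + c) = mu a b + mu a c
      rw [hc a, ha, hc a, hc a]
    right_distrib := ha
    zero_mul := fun a => by
      change mu 0 a = 0
      have := ha 0 0 a
      rw [add_zero] at this
      simpa using this
    mul_zero := fun a => by
      change mu a 0 = 0
      have := ha 0 0 a
      rw [add_zero, hc] at this
      simpa using this
    one_mul := ho
    mul_one := fun a => by
      change mu a o = a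
      rw [hc, ho] }

namespace IsRDS

variable {N : AddSubgroup A} {D : Finset A} (h : IsRDS N D)
include h

/-- The second difference of the transversal map. -/
noncomputable def be (a b : A) : A := h.rep (a + b) - h.rep a - h.rep b

lemma be_comm (a b : A) : h.be a b = h.be b a := by
  simp only [be, add_comm a b]; abel

lemma be_mem (a b : A) : h.be a b ∈ N := by
  have := N.sub_mem (N.sub_mem (h.rep_sub (a + b)) (h.rep_sub a)) (h.rep_sub b)
  convert this using 1
  simp only [be]; abel

lemma be_congr {a a' : A} (ha : a - a' ∈ N) (b : A) : h.be a b = h.be a' b := by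
  simp only [be]
  rw [h.rep_congr ha, h.rep_congr (g := a + b) (g' := a' + b) (by simpa using ha)]

lemma be_eq_zero (h0 : (0 : A) ∈ D) {a b : A} (hab : h.be a b = 0) : a ∈ N ∨ b ∈ N := by
  by_contra hc
  push Not at hc
  have h1 : h.rep (a + b) - h.rep a = h.rep b - 0 := by
    rw [sub_zero, ← sub_eq_zero]; exact hab
  have h2 : h.rep (a + b) - h.rep a ∉ N := by
    rw [h1, sub_zero]
    intro hn
    exact hc.2 (by simpa using N.sub_mem hn (h.rep_sub b))
  have h3 := (h.diff_unique (h.rep_mem _) (h.rep_mem _) (h.rep_mem _) h0 h1 h2).2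
  have h4 := h.rep_sub a
  rw [h3, zero_sub, N.neg_mem_iff] at h4
  exact hc.1 h4

variable [Fintype A] [DecidableEq A]

lemma be_add (hev : Even D.card) (hN : Nat.card N = D.card) (h0 : (0 : A) ∈ D) (a a' b : A) :
    h.be (a + a') b = h.be a b + h.be a' b := by
  have h1 := congrFun (h.cube hev hN h0 a a' b) 0
  have h2 : h.rep 0 = 0 := h.rep_eq h0 (by simp)
  simp only [dl, zero_add, h2, Pi.zero_apply] at h1
  simp only [be]
  rw [← sub_eq_zero, ← h1]
  abel

theorem coord (hev : Even D.card) (hN : Nat.card N = D.card) (h0 : (0 : A) ∈ D)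
    (h2 : 1 < D.card) :
    ∃ (S : Type) (_ : NonAssocRing S) (_ : NoZeroDivisors S) (_ : Nontrivial S) (_ : Finite S),
      (∀ a b : S, a * b = b * a) ∧ ∃ (pt ln : S × S → A) (vx : S → A),
        Function.Bijective pt ∧ Function.Bijective ln ∧
        (∀ x y m k : S, pt (x, y) - ln (m, k) ∈ D ↔ m * x + y = k) ∧
        (∀ x y k : S, pt (x, y) - vx k ∈ N ↔ x = k) := by
  have hadd := h.be_add hev hN h0
  have hsub : ∀ a a' b, h.be (a - a') b = h.be a b - h.be a' b := by
    intro a a' b
    rw [eq_sub_iff_add_eq, ← hadd, sub_add_cancel]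
  obtain ⟨e, he, he0⟩ := exists_mem_ne h2 0
  have heN : e ∉ N := fun hn => he0 (h.eq_of_sub_mem he h0 (by simpa using hn))
  have hcancel : ∀ a a', h.be a e = h.be a' e → a - a' ∈ N := by
    intro a a' haa
    refine (h.be_eq_zero h0 (b := e) ?_).resolve_right heN
    rw [hsub, haa, sub_self]
  let f : D → N := fun d => ⟨h.be d e, h.be_mem _ _⟩
  have hi : Function.Injective f := fun a b hab =>
    Subtype.ext (h.eq_of_sub_mem a.2 b.2 (hcancel _ _ (congrArg Subtype.val hab)))
  have hb := hi.bijective_of_nat_card_le (by rw [hN]; simp)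
  choose σ' hσ' using hb.2
  let σ : N → A := fun x => σ' x
  have hσD : ∀ x, σ x ∈ D := fun x => (σ' x).2
  have hσ : ∀ x, h.be (σ x) e = x := fun x => congrArg Subtype.val (hσ' x)
  have hσinj : ∀ x x', σ x - σ x' ∈ N → x = x' := by
    intro x x' hx
    apply Subtype.ext
    rw [← hσ x, ← hσ x', h.be_congr hx]
  let mu : N → N → N := fun x y => ⟨h.be (σ x) (σ y), h.be_mem _ _⟩
  have hc : ∀ a b, mu a b = mu b a := fun a b => Subtype.ext (h.be_comm _ _)
  have ha : ∀ a b c, mu (a + b) c = mu a c + mu b c := by
    intro a b c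
    apply Subtype.ext
    change h.be (σ (a + b)) (σ c) = h.be (σ a) (σ c) + h.be (σ b) (σ c)
    rw [← hadd]
    refine h.be_congr (hcancel _ _ ?_) _
    rw [hadd, hσ, hσ, hσ]; rfl
  have ho : ∀ a, mu ⟨h.be e e, h.be_mem _ _⟩ a = a := by
    intro a
    apply Subtype.ext
    change h.be (σ _) (σ a) = a
    rw [h.be_congr (hcancel _ e (by rw [hσ])), h.be_comm, hσ]
  have hz : ∀ x : N, σ x ∈ N → x = 0 := by
    intro x hx
    apply Subtype.ext
    rw [← hσ x, h.be_congr (a' := 0) (by simpa using hx)]
    have := hadd 0 0 e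
    rw [add_zero] at this
    simpa using this
  have hbij : ∀ c : N → N, Function.Bijective (fun p : N × N => σ p.1 + (p.2 - c p.1 : N)) := by
    intro c
    rw [Nat.bijective_iff_injective_and_card]
    constructor
    · rintro ⟨x, y⟩ ⟨x', y'⟩ hh
      simp only at hh
      have h3 : x = x' := by
        apply hσinj
        have : σ x - σ x' = ((y' - c x' : N) : A) - (y - c x : N) := by
          rw [sub_eq_sub_iff_add_eq_add, hh, add_comm]
        rw [this]
        exact N.sub_mem (Subtype.property _) (Subtype.property _)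
      subst h3
      have h4 := Subtype.ext (add_left_cancel hh)
      rw [sub_left_inj] at h4
      rw [h4]
    · rw [Nat.card_prod, Nat.card_eq_fintype_card (α := A), h.card_eq, hN]
  letI : NonAssocRing N := ringOfMul mu _ hc ha ho
  refine ⟨N, inferInstance, ⟨?_⟩, ?_, inferInstance, hc,
    fun p => σ p.1 + (p.2 - 0 : N), fun p => σ p.1 + (p.2 - mu p.1 p.1 : N), σ,
    hbij (fun _ => 0), hbij (fun m => mu m m), ?_, ?_⟩
  · intro a b hab
    have : h.be (σ a) (σ b) = 0 := congrArg Subtype.val hab
    exact (h.be_eq_zero h0 this).imp (hz a) (hz b)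
  · exact Finite.one_lt_card_iff_nontrivial.1 (by rw [hN]; exact h2)
  · intro x y m k
    have h3 : h.rep (σ x - σ m) = σ x - σ m - h.be (σ m) (σ x) + h.be (σ m) (σ m) := by
      have h4 : h.be (σ x - σ m) (σ m) = σ x - h.rep (σ x - σ m) - σ m := by
        simp only [be, sub_add_cancel]
        rw [h.rep_eq (hσD x) (g := σ x) (by simp), h.rep_eq (hσD m) (g := σ m) (by simp)]
      rw [hsub, h.be_comm] at h4
      rw [← sub_eq_zero] at h4 ⊢
      rw [← h4]; abel
    have h5 : (m * x + y = k) ↔ h.be (σ m) (σ x) + (y : A) = k := Subtype.ext_iff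
    rw [h5]
    change σ x + ((y : A) - 0) - (σ m + ((k : A) - h.be (σ m) (σ m))) ∈ D ↔ _
    constructor
    · intro hh
      have h6 := h.rep_eq hh (g := σ x - σ m) (by
        have := N.add_mem (N.sub_mem y.2 k.2) (h.be_mem (σ m) (σ m))
        convert this using 1
        abel)
      rw [h3, ← sub_eq_zero] at h6
      rw [← sub_eq_zero, ← neg_eq_zero, ← h6]; abel
    · intro hh
      have := h.rep_mem (σ x - σ m)
      rw [h3] at this
      convert this using 1
      rw [← hh]; abel
  · intro x y k
    change σ x + ((y : A) - 0) - σ k ∈ N ↔ _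
    constructor
    · intro hh
      apply hσinj
      have := N.sub_mem hh y.2
      convert this using 1
      abel
    · rintro rfl
      simp

end IsRDS

end Pool.Agent.MP_f5a786_co
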