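import Mathlib
import Pool.Agent.MP_f5a786_co.Coord

/-!
From a plane with an abelian group of type (b) to a relative difference set, and back.
-/

set_option autoImplicit false

namespace Pool.Agent.MP_f5a786_co

open Configuration

variable {P L : Type} [Membership P L] [ProjectivePlane P L]

lemma pt_eq {p q : P} {l m : L} (h1 : p ∈ l) (h2 : q ∈ l) (h3 : p ∈ m) (h4 : q ∈ m)
    (h : l ≠ m) : p = q := (Nondegenerate.eq_or_eq h1 h2 h3 h4).resolve_right h

lemma ln_eq {p q : P} {l m : L} (h1 : p ∈ l) (h2 : q ∈ l) (h3 : p ∈ m) (h4 : q ∈ m)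
    (h : p ≠ q) : l = m := (Nondegenerate.eq_or_eq h1 h2 h3 h4).resolve_left h

lemma exists_meet {l m : L} (h : l ≠ m) : ∃ p : P, p ∈ l ∧ p ∈ m :=
  ⟨HasPoints.mkPoint h, HasPoints.mkPoint_ax h⟩

lemma exists_join {p q : P} (h : p ≠ q) : ∃ l : L, p ∈ l ∧ q ∈ l :=
  ⟨HasLines.mkLine h, HasLines.mkLine_ax h⟩

lemma card_affine [Finite P] [Finite L] {l m : L} (h : l ≠ m) :
    Set.ncard {p : P | p ∈ l ∧ p ∉ m} = ProjectivePlane.order P L := by
  obtain ⟨q, hq⟩ := exists_meet (P := P) h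
  have h1 : {p : P | p ∈ l ∧ p ∉ m} = {p : P | p ∈ l} \ {q} := by
    ext p
    simp only [Set.mem_setOf_eq, Set.mem_diff, Set.mem_singleton_iff]
    refine and_congr_right fun hp => not_congr ⟨fun hm => pt_eq hp hq.1 hm hq.2 h, ?_⟩
    rintro rfl; exact hq.2
  have h2 := ProjectivePlane.pointCount_eq P l
  have h3 : pointCount P l = Set.ncard {p : P | p ∈ l} := rfl
  have h4 := Set.ncard_diff_singleton_add_one (s := {p : P | p ∈ l}) (a := q) hq.1
  rw [h1]
  omega

/-- The plane in terms of an abelian group acting regularly on affine points and lines. -/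
theorem plane_coord [Finite P] [Finite L] (hev : Even (ProjectivePlane.order P L))
    {A : Type} [AddCommGroup A] (pos : A → P) (act : A → L → L) (pinf : P) (Linf l0 v0 : L)
    (hinf : pinf ∈ Linf)
    (inc : ∀ a b l, pos a ∈ act b l ↔ pos (a - b) ∈ l)
    (hfix : ∀ b l, pinf ∈ act b l ↔ pinf ∈ l)
    (hA : ∀ a, pos a ∉ Linf) (hAs : ∀ p, p ∉ Linf → ∃ a, pos a = p)
    (hAi : Function.Injective pos)
    (hl0 : pinf ∉ l0) (hp0 : pos 0 ∈ l0)
    (hLs : ∀ l, pinf ∉ l → ∃ b, act b l0 = l) (hLi : Function.Injective (fun b => act b l0))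
    (hv0 : pinf ∈ v0) (hv1 : pos 0 ∈ v0) :
    ∃ (S : Type) (_ : NonAssocRing S) (_ : NoZeroDivisors S) (_ : Nontrivial S) (_ : Finite S),
        (∀ a b : S, a * b = b * a) ∧
        ∃ (e : S × S ⊕ Option S ≃ P) (f : S × S ⊕ Option S ≃ L),
          ∀ x y m m' k : S,
            (e (Sum.inl (x, y)) ∈ f (Sum.inl (m, k)) ↔ m * x + y = k) ∧
            (e (Sum.inl (x, y)) ∈ f (Sum.inr (some k)) ↔ x = k) ∧
            (e (Sum.inl (x, y)) ∉ f (Sum.inr none)) ∧
            (e (Sum.inr (some m')) ∈ f (Sum.inl (m, k)) ↔ m' = m) ∧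
            (e (Sum.inr (some m')) ∉ f (Sum.inr (some k))) ∧
            (e (Sum.inr (some m')) ∈ f (Sum.inr none)) ∧
            (e (Sum.inr none) ∉ f (Sum.inl (m, k))) ∧
            (e (Sum.inr none) ∈ f (Sum.inr (some k))) ∧
            (e (Sum.inr none) ∈ f (Sum.inr none)) := by
  classical
  haveI : Finite A := Finite.of_injective pos hAi
  letI : Fintype A := Fintype.ofFinite A
  have hne : ∀ a, pos a ≠ pinf := fun a ha => hA a (ha ▸ hinf)
  have hself : ∀ b, pos b ∈ act b v0 := fun b => by rw [inc, sub_self]; exact hv1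
  have hV : ∀ b, pinf ∈ act b v0 := fun b => (hfix b v0).2 hv0
  have hL : ∀ b, pinf ∉ act b l0 := fun b hb => hl0 ((hfix b l0).1 hb)
  have hVne : ∀ b, act b v0 ≠ Linf := fun b hb => hA b (hb ▸ hself b)
  have hLne : ∀ b, act b l0 ≠ Linf := fun b hb => hL b (hb ▸ hinf)
  have hstab : ∀ b, pos b ∈ v0 → act b v0 = v0 := fun b hb =>
    ln_eq (hself b) (hV b) hb hv0 (hne b)
  let N : AddSubgroup A := AddSubgroup.ofSub {a | pos a ∈ v0} ⟨0, hv1⟩ (by
    intro x hx y hy
    change pos (x + -y) ∈ v0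
    rw [← sub_eq_add_neg, ← inc, hstab y hy]
    exact hx)
  have hN : ∀ a, a ∈ N ↔ pos a ∈ v0 := fun a => Iff.rfl
  let D : Finset A := Finset.univ.filter (fun a => pos a ∈ l0)
  have hD : ∀ a, a ∈ D ↔ pos a ∈ l0 := fun a => by simp [D]
  have hcount : ∀ l, l ≠ Linf → Nat.card {a : A | pos a ∈ l} = ProjectivePlane.order P L := by
    intro l hl
    rw [← card_affine (P := P) hl, Nat.card_coe_set_eq,
      ← Set.ncard_image_of_injective _ hAi]
    congr 1
    ext p
    constructor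
    · rintro ⟨a, ha, rfl⟩; exact ⟨ha, hA a⟩
    · rintro ⟨h1, h2⟩
      obtain ⟨a, rfl⟩ := hAs p h2
      exact ⟨a, h1, rfl⟩
  have hDc : D.card = ProjectivePlane.order P L := by
    rw [← hcount l0 (fun hh => hl0 (hh ▸ hinf)), Nat.card_coe_set_eq, ← Set.ncard_coe_finset]
    congr 1
    ext a
    simp [D]
  have hNc : Nat.card N = D.card := by
    rw [hDc, ← hcount v0 (fun hh => hA 0 (hh ▸ hv1))]
    rfl
  have h : IsRDS N D := by
    constructor
    · intro g hg
      have hg0 : pos g ≠ pos 0 := fun hh => hg (by rw [hN, hh]; exact hv1)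
      obtain ⟨m, hm1, hm2⟩ := exists_join (L := L) hg0
      have hm3 : pinf ∉ m := fun hh => hg (by
        rw [hN, ← ln_eq hm2 hh hv1 hv0 (hne 0)]; exact hm1)
      obtain ⟨b, rfl⟩ := hLs m hm3
      refine ⟨(g - b, 0 - b), ⟨(hD _).2 ((inc _ _ _).1 hm1), (hD _).2 ((inc _ _ _).1 hm2),
        by simp⟩, ?_⟩
      rintro ⟨d, d'⟩ ⟨hd, hd', hdd⟩
      have h1 : pos g ∈ act (-d') l0 := by
        rw [inc, ← hdd]; simpa using (hD _).1 hd
      have h2 : pos 0 ∈ act (-d') l0 := by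
        rw [inc]; simpa using (hD _).1 hd'
      have h3 : -d' = b := hLi (ln_eq h1 h2 hm1 hm2 hg0)
      rw [← h3, ← hdd]; simp
    · intro g
      have h1 : l0 ≠ act g v0 := fun hh => hl0 (hh ▸ hV g)
      obtain ⟨q, hq1, hq2⟩ := exists_meet (P := P) h1
      have hq3 : q ∉ Linf := fun hh => hl0 (pt_eq hq2 (hV g) hh hinf (hVne g) ▸ hq1)
      obtain ⟨d, rfl⟩ := hAs q hq3
      refine ⟨d, ⟨(hD _).2 hq1, (hN _).2 ((inc _ _ _).1 hq2)⟩, ?_⟩
      rintro d' ⟨hd1, hd2⟩
      exact hAi (pt_eq ((hD _).1 hd1) hq1 ((inc _ _ _).2 ((hN _).1 hd2)) hq2 h1)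
  obtain ⟨S, i1, i2, i3, i4, hcomm, pt, ln, vx, hpt, hln, hI, hIv⟩ :=
    h.coord (hDc ▸ hev) hNc ((hD _).2 hp0) (hDc ▸ ProjectivePlane.one_lt_order P L)
  refine ⟨S, i1, i2, i3, i4, hcomm, ?_⟩
  choose inf hinf1 hinf2 using fun m : S => exists_meet (P := P) (hLne (ln (m, 0)))
  have I1 : ∀ x y m k, pos (pt (x, y)) ∈ act (ln (m, k)) l0 ↔ m * x + y = k := by
    intro x y m k; rw [inc, ← hD, hI]
  have I2 : ∀ x y k, pos (pt (x, y)) ∈ act (vx k) v0 ↔ x = k := by
    intro x y k; rw [inc, ← hN, hIv]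
  have hLi' : Function.Injective (fun p => act (ln p) l0) := hLi.comp hln.1
  have I4 : ∀ m' m k, inf m' ∈ act (ln (m, k)) l0 ↔ m' = m := by
    intro m' m k
    constructor
    · intro hh
      by_contra hmm
      have hs : Function.Surjective (fun x : S => (m - m') * x) :=
        Finite.surjective_of_injective fun x x' hx => by
          have : (m - m') * (x - x') = 0 := by
            rw [mul_sub]; exact sub_eq_zero.2 hx
          rcases mul_eq_zero.1 this with h1 | h1
          · exact absurd (sub_eq_zero.1 h1).symm hmm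
          · exact sub_eq_zero.1 h1
      obtain ⟨x, hx⟩ := hs k
      have h1 := (I1 x (-(m' * x)) m' 0).2 (by simp)
      have h2 := (I1 x (-(m' * x)) m k).2 (by rw [← hx]; simp only [sub_mul]; abel)
      have h3 := ln_eq h1 (hinf1 m') h2 hh (fun he => hA _ (he ▸ hinf2 m'))
      exact hmm (congrArg Prod.fst (hLi' h3))
    · rintro rfl
      by_cases hk : act (ln (m', 0)) l0 = act (ln (m', k)) l0
      · exact hk ▸ hinf1 m'
      · obtain ⟨q, hq1, hq2⟩ := exists_meet (P := P) hk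
        have hq3 : q ∈ Linf := by
          by_contra hq
          obtain ⟨a, rfl⟩ := hAs q hq
          obtain ⟨⟨x, y⟩, rfl⟩ := hpt.2 a
          rw [I1] at hq1 hq2
          exact hk (by rw [← hq2, hq1])
        exact pt_eq hq1 (hinf1 m') hq3 (hinf2 m') (hLne _) ▸ hq2
  have I5 : ∀ m k, inf m ∉ act (vx k) v0 := fun m k hh =>
    hL _ (pt_eq hh (hV _) (hinf2 m) hinf (hVne _) ▸ hinf1 m)
  let e : S × S ⊕ Option S → P := Sum.elim (fun p => pos (pt p)) (fun o => o.elim pinf inf)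
  let f : S × S ⊕ Option S → L :=
    Sum.elim (fun p => act (ln p) l0) (fun o => o.elim Linf (fun k => act (vx k) v0))
  have he : Function.Bijective e := by
    constructor
    · rintro (p | _ | m) (p' | _ | m') hh <;>
        simp only [e, Sum.elim_inl, Sum.elim_inr, Option.elim] at hh
      · rw [hpt.1 (hAi hh)]
      · exact absurd hh (hne _)
      · exact absurd (hh ▸ hinf2 m') (hA _)
      · exact absurd hh.symm (hne _)
      · rfl
      · exact absurd (hh ▸ hinf1 m') (hL _)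
      · exact absurd (hh ▸ hinf2 m) (hA _)
      · exact absurd (hh ▸ hinf1 m) (hL _)
      · rw [(I4 m m' 0).1 (hh ▸ hinf1 m')]
    · intro p
      by_cases hp : p ∈ Linf
      · by_cases hp' : p = pinf
        · exact ⟨Sum.inr none, hp'.symm⟩
        · have h1 : p ≠ pos 0 := fun hh => hA 0 (hh ▸ hp)
          obtain ⟨l, hl1, hl2⟩ := exists_join (L := L) h1
          have h2 : pinf ∉ l := fun hh => hA 0 (ln_eq hl1 hh hp hinf hp' ▸ hl2)
          obtain ⟨b, rfl⟩ := hLs l h2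
          obtain ⟨⟨m, k⟩, rfl⟩ := hln.2 b
          exact ⟨Sum.inr (some m), pt_eq ((I4 m m k).2 rfl) hl1 (hinf2 m) hp (hLne _)⟩
      · obtain ⟨a, rfl⟩ := hAs p hp
        obtain ⟨q, rfl⟩ := hpt.2 a
        exact ⟨Sum.inl q, rfl⟩
  have hf : Function.Bijective f := by
    constructor
    · rintro (p | _ | m) (p' | _ | m') hh <;>
        simp only [f, Sum.elim_inl, Sum.elim_inr, Option.elim] at hh
      · rw [hLi' hh]
      · exact absurd hh (hLne _)
      · exact absurd (hh ▸ hV _) (hL _)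
      · exact absurd hh.symm (hLne _)
      · rfl
      · exact absurd hh.symm (hVne _)
      · exact absurd (hh ▸ hV _) (hL _)
      · exact absurd hh (hVne _)
      · rw [(I2 m 0 m').1 (hh ▸ (I2 m 0 m).2 rfl)]
    · intro l
      by_cases hl : pinf ∈ l
      · by_cases hl' : l = Linf
        · exact ⟨Sum.inr none, hl'.symm⟩
        · have h1 : 0 < Nat.card {a : A | pos a ∈ l} := by
            rw [hcount l hl']; exact ProjectivePlane.one_lt_order P L |>.le
          obtain ⟨⟨a, ha⟩⟩ := (Nat.card_pos_iff.1 h1).1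
          obtain ⟨⟨x, y⟩, rfl⟩ := hpt.2 a
          exact ⟨Sum.inr (some x), ln_eq ((I2 x y x).2 rfl) (hV _) ha hl (hne _)⟩
      · obtain ⟨b, rfl⟩ := hLs l hl
        obtain ⟨q, rfl⟩ := hln.2 b
        exact ⟨Sum.inl q, rfl⟩
  refine ⟨Equiv.ofBijective e he, Equiv.ofBijective f hf, fun x y m m' k => ?_⟩
  exact ⟨I1 x y m k, I2 x y k, hA _, I4 m' m k, I5 m' k, hinf2 m', hL _, hV _, hinf⟩

end Pool.Agent.MP_f5a786_co
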